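import Pool.Agent.SCG.Fin

/-!
# The orientable genus of subcubic graphs embeddable in a fixed surface

Maps (cellular embeddings) of a connected graph `G` are described by flags (`Pool/Agent/Helper35/OG/Map.lean`).
-/

set_option autoImplicit false

namespace Pool.Agent.Results.MP_6d4ab8_lc.AllSubcubic

open Pool.Agent.Helper35.OG N68a2faeb

/-- For every `k` there is one polynomial time function which computes the orientable genus of every connected graph of
maximum degree at most three that has a cellular embedding in some closed surface (orientable or not) of Euler genus at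
most `k`. The input is only the list of the pairs of adjacent vertices; no embedding is given. -/
theorem result (k : ℕ) : ∃ f : List (ℕ × ℕ) → ℕ, IsPolyTime f ∧
    ∀ (n : ℕ) (G : SimpleGraph (Fin n)), G.Connected → 2 ≤ n → (∀ v, (G.neighborSet v).ncard ≤ 3) →
      (∃ M : GMap G, M.eg ≤ k) →
      ∀ l : List (ℕ × ℕ), (∀ x, x ∈ l ↔ ∃ u v : Fin n, G.Adj u v ∧ x = ((u : ℕ), (v : ℕ))) →
        f l = orientableGenus G ∧ ∃ M : GMap G, M.Orientable ∧ M.eg = 2 * (orientableGenus G : ℤ) := by
  classical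
  obtain ⟨f, hf, h⟩ := Pool.Agent.SCG.final k
  refine ⟨f, hf, ?_⟩
  intro n G hG hn h3 hM l hl
  have hnt : Nontrivial (Fin n) := Fin.nontrivial_iff_two_le.2 hn
  refine ⟨h n G hG hn ?_ hM l ⟨?_, ?_⟩, ?_⟩
  · intro v
    refine le_trans (le_of_eq ?_) (h3 v)
    unfold Pool.Agent.BEO.nb
    rw [← Set.ncard_coe_finset]
    congr 1
    ext u
    simp [SimpleGraph.mem_neighborSet]
  · intro u v
    constructor
    · intro huv
      exact Or.inl ((hl _).2 ⟨u, v, huv, rfl⟩)
    · rintro (h1 | h1)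
      · obtain ⟨u', v', h2, h3'⟩ := (hl _).1 h1
        obtain ⟨h4, h5⟩ := Prod.mk.inj h3'
        rw [Fin.ext h4, Fin.ext h5]
        exact h2
      · obtain ⟨u', v', h2, h3'⟩ := (hl _).1 h1
        obtain ⟨h4, h5⟩ := Prod.mk.inj h3'
        rw [Fin.ext h4, Fin.ext h5]
        exact h2.symm
  · intro x hx
    exact (hl x).1 hx
  · have hnat : ∀ M : GMap G, M.Orientable → ∃ g : ℕ, M.eg = 2 * (g : ℤ) := by
      intro M hMo
      obtain ⟨g, hg, -⟩ := Pool.Agent.SCG.gen_le' hG M hMo
      exact ⟨g, hg⟩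
    obtain ⟨M0, -⟩ := hM
    obtain ⟨lam, hlam⟩ := Pool.Agent.SCG.exists_ori hG M0
    obtain ⟨g, hg⟩ := hnat _ hlam
    have hmem : orientableGenus G ∈ {g : ℕ | ∃ M : GMap G, M.Orientable ∧ M.eg = 2 * (g : ℤ)} :=
      Nat.sInf_mem ⟨g, _, hlam, hg⟩
    exact hmem

end Pool.Agent.Results.MP_6d4ab8_lc.AllSubcubic
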