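import Pool.Agent.EPH.Fin

/-!
# The orientable genus of graphs with a polyhedral embedding in a fixed surface, in polynomial time

Maps (cellular embeddings) of a connected graph `G` are described by flags (`Pool/Agent/Helper35/OG/Map.lean`).
-/

set_option autoImplicit false

namespace Pool.Agent.Results.MP_6d4ab8_lc.ExactPolyhedral

open Pool.Agent.Helper35.OG N68a2faeb

/-- The code of a flag: the two ends of its dart and its side. -/
def code {n : ℕ} {G : SimpleGraph (Fin n)} (p : Flag G) : ℕ × (ℕ × Bool) := ((p.1.fst : ℕ), ((p.1.snd : ℕ), p.2))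

/-- `l` describes the map `S`: its members are the pairs of the codes of a flag and of the other flag of its corner. -/
def Describes {n : ℕ} {G : SimpleGraph (Fin n)} (S : GMap G) (l : List ((ℕ × (ℕ × Bool)) × (ℕ × (ℕ × Bool)))) : Prop :=
  ∀ x, x ∈ l ↔ ∃ p : Flag G, x = (code p, code (S.nxt p))

/-- The face of the map `S` at the flag `p`. -/
def faceAt {n : ℕ} {G : SimpleGraph (Fin n)} (S : GMap G) (p : Flag G) : S.Face := Quot.mk _ p

/-- Polyhedral maps: every vertex has at least three neighbours, every face has at most one corner at every vertex (so its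
boundary is a cycle), and whenever two different faces have two common vertices, these are joined by an edge whose two
sides are the two faces (so the faces meet in this edge only). -/
structure Polyhedral {n : ℕ} {G : SimpleGraph (Fin n)} (S : GMap G) : Prop where
  deg : ∀ v, 3 ≤ Nat.card {w // G.Adj v w}
  one : ∀ p q : Flag G, p.1.fst = q.1.fst → faceAt S p = faceAt S q → q = p ∨ q = S.nxt p
  two : ∀ p q p' q' : Flag G, p.1.fst = q.1.fst → p'.1.fst = q'.1.fst → p.1.fst ≠ p'.1.fst →
    faceAt S p = faceAt S p' → faceAt S q = faceAt S q' → faceAt S p ≠ faceAt S q →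
    ∃ r : Flag G, r.1.fst = p.1.fst ∧ r.1.snd = p'.1.fst ∧ faceAt S r = faceAt S p ∧ faceAt S (side r) = faceAt S q

private theorem poly_of {n : ℕ} {G : SimpleGraph (Fin n)} {S : GMap G} (h : Polyhedral S) : Pool.Agent.EPH.Poly S where
  deg v := by
    classical
    refine (h.deg v).trans (le_of_eq ?_)
    rw [Nat.card_eq_fintype_card, Fintype.card_subtype]
    unfold Pool.Agent.BEO.nb
    congr 1
  one := h.one
  two := h.two

/-- For every `k` one polynomial time function computes the orientable genus of every connected graph which is given with a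
polyhedral embedding of Euler genus at most `k` in some closed surface. There is no other condition on the degrees or on
the face-width. -/
theorem result (k : ℕ) : ∃ f : List ((ℕ × (ℕ × Bool)) × (ℕ × (ℕ × Bool))) → ℕ, IsPolyTime f ∧
    ∀ (n : ℕ) (G : SimpleGraph (Fin n)), G.Connected → 2 ≤ n → ∀ S : GMap G, S.eg ≤ k → Polyhedral S →
      ∀ l, Describes S l → f l = orientableGenus G ∧
        ∃ M : GMap G, M.Orientable ∧ M.eg = 2 * (orientableGenus G : ℤ) := by
  obtain ⟨f, hf, h⟩ := Pool.Agent.EPH.final k
  exact ⟨f, hf, fun n G hG hn S hk hP l hl => h n G hG hn S hk (poly_of hP) l hl⟩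

end Pool.Agent.Results.MP_6d4ab8_lc.ExactPolyhedral
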